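import Pool.Agent.H25.CostA

namespace Pool.Agent.Results.MP_ff3c98_co.No

variable {V : Type}

/-- `S` is a determining set: only the identity automorphism fixes every vertex of `S`. -/
def IsDetermining (G : SimpleGraph V) (S : Finset V) : Prop :=
  ∀ φ : G ≃g G, (∀ v ∈ S, φ v = v) → ∀ v, φ v = v

/-- The determining number: least size of a determining set. -/
noncomputable def det (G : SimpleGraph V) : ℕ :=
  sInf {k | ∃ S : Finset V, IsDetermining G S ∧ S.card = k}

/-- A colouring with at most two colours is distinguishing if only the identity preserves it. -/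
def IsDistinguishing (G : SimpleGraph V) (c : V → Bool) : Prop :=
  ∀ φ : G ≃g G, (∀ v, c (φ v) = c v) → ∀ v, φ v = v

def TwoDistinguishable (G : SimpleGraph V) : Prop := ∃ c : V → Bool, IsDistinguishing G c

/-- The cost number: least size of a colour class of a distinguishing 2-colouring. -/
noncomputable def cost (G : SimpleGraph V) : ℕ :=
  sInf {k | ∃ c : V → Bool, IsDistinguishing G c ∧ ∃ i : Bool, {v | c v = i}.ncard = k}

/-- The automorphism group as a group of permutations. -/
def autGroup (G : SimpleGraph V) : Subgroup (Equiv.Perm V) where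
  carrier := {σ | ∀ x y, G.Adj (σ x) (σ y) ↔ G.Adj x y}
  mul_mem' := fun {a b} ha hb x y => (ha (b x) (b y)).trans (hb x y)
  one_mem' := fun _ _ => Iff.rfl
  inv_mem' := fun {a} ha x y => by
    rw [← ha]
    simp

/-- For every `d ≥ 1` the cost number is bounded on the finite 2-distinguishable graphs with
determining number `d`. -/
theorem result (d : ℕ) (hd : 1 ≤ d) : ∃ C : ℕ, ∀ (V : Type) [Fintype V] (G : SimpleGraph V),
    TwoDistinguishable G → det G = d → cost G ≤ C := by
  classical
  obtain ⟨M, hM⟩ := Pool.Agent.H25.Cost.bounded d hd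
  refine ⟨M, fun V _ G ⟨c, hc⟩ hdet => ?_⟩
  have hne : {k | ∃ S : Finset V, IsDetermining G S ∧ S.card = k}.Nonempty :=
    ⟨_, Finset.univ, fun φ h v => h v (Finset.mem_univ v), rfl⟩
  obtain ⟨B, hB, hcard⟩ := Nat.sInf_mem hne
  have hcard' : B.card = d := hcard.trans hdet
  let e : B ≃ Fin d := B.equivFinOfCardEq hcard'
  obtain ⟨S, -, hS, hS2⟩ := hM V (autGroup G) (fun i => (e.symm i : V)) {v | c v = true}
    (fun g hg h => Equiv.ext (hB ⟨g, fun {x y} => hg x y⟩ fun v hv => by
      have := h (e ⟨v, hv⟩)
      simpa using this))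
    (fun g hg h => Equiv.ext (hc ⟨g, fun {x y} => hg x y⟩ fun v => Bool.eq_iff_iff.2 (h v)))
  refine le_trans (Nat.sInf_le ⟨fun v => decide (v ∈ S), fun φ h v => ?_, true, rfl⟩) ?_
  · have := hS2 φ.toEquiv (fun x y => φ.map_rel_iff) fun w => by
      have := h w
      simpa using this
    exact congrArg (fun σ : Equiv.Perm V => σ v) this
  · have : {v | decide (v ∈ S) = true} = S := by
      ext v
      simp
    rw [this]
    exact hS

end Pool.Agent.Results.MP_ff3c98_co.No
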